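import Pool.Agent.W581.HQ.Stm

/-!
HQ-SUPB: the supporting function in the remaining case.
-/

set_option autoImplicit false

namespace Pool.Agent.W337.HQ.SupB

open MeasureTheory Set Filter Topology
open Pool.Agent.W360.MQ (RC)
open Pool.Agent.W581.HQ

lemma tangent {φ : ℝ → ℝ} (hc : ConvexOn ℝ univ φ) (hd : Differentiable ℝ φ) (v u : ℝ) :
    φ v + deriv φ v * (u - v) ≤ φ u := by
  have h := (hd v).hasDerivAt
  rcases lt_trichotomy v u with h1 | h1 | h1
  · have h2 := hc.le_slope_of_hasDerivAt (mem_univ v) (mem_univ u) h1 h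
    rw [slope_def_field, le_div_iff₀ (by linarith)] at h2
    linarith
  · rw [h1]; simp
  · have h2 := hc.slope_le_of_hasDerivAt (mem_univ u) (mem_univ v) h1 h
    rw [slope_def_field, div_le_iff₀ (by linarith)] at h2
    linarith

lemma young1 {p σ : ℝ} (hp : 2 < p) (h0 : 0 < σ) :
    σ ^ 2 ≤ 2 / p * σ ^ p + (p - 2) / p := by
  have hp0 : 0 < p := by linarith
  have h := Real.geom_mean_le_arith_mean2_weighted (w₁ := 2 / p) (w₂ := (p - 2) / p)
    (p₁ := σ ^ p) (p₂ := 1) (by positivity) (div_nonneg (by linarith) hp0.le)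
    (Real.rpow_nonneg h0.le p) zero_le_one (by field_simp; ring)
  rw [Real.one_rpow, mul_one, mul_one, ← Real.rpow_mul h0.le] at h
  have h1 : p * (2 / p) = 2 := by field_simp
  rw [h1] at h
  have h2 : σ ^ (2 : ℝ) = σ ^ 2 := by
    have := Real.rpow_natCast σ 2
    simpa using this
  rwa [h2] at h

lemma young2 {p σ : ℝ} (hp1 : 1 < p) (hp : p < 2) (h0 : 0 < σ) :
    2 / p * σ ^ p + (p - 2) / p ≤ σ ^ 2 := by
  have hp0 : 0 < p := by linarith
  have h := Real.geom_mean_le_arith_mean2_weighted (w₁ := p / 2) (w₂ := 1 - p / 2)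
    (p₁ := σ ^ 2) (p₂ := 1) (by positivity) (by linarith)
    (sq_nonneg σ) zero_le_one (by ring)
  have h3 : (σ ^ 2 : ℝ) ^ (p / 2) = σ ^ p := by
    have h2 : σ ^ 2 = σ ^ (2 : ℝ) := by
      have := Real.rpow_natCast σ 2
      simpa using this.symm
    rw [h2, ← Real.rpow_mul h0.le]
    congr 1
    ring
  rw [Real.one_rpow, mul_one, mul_one, h3] at h
  have h4 := mul_le_mul_of_nonneg_left h (show 0 ≤ 2 / p by positivity)
  have h5 : 2 / p * (p / 2 * σ ^ 2 + (1 - p / 2)) = σ ^ 2 + (2 - p) / p := by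
    field_simp
  rw [h5] at h4
  have h6 : (p - 2) / p = -((2 - p) / p) := by ring
  rw [h6]
  linarith

/-- the inequality at unit scale, as a function of `σ` and `d` -/
lemma core {p : ℝ} {φ : ℝ → ℝ} (hD : DH p φ) {tc : ℝ} (hT : TC p φ tc) {τ : ℝ → ℝ}
    (hC : Cv p φ tc τ)
    (hid : ∀ s, 1 ≤ s → s * hh p φ τ s / 2 - (∫ u in (0 : ℝ)..s, hh p φ τ u)
      - (p - 2) / p * deriv φ 1 = s ^ p * (φ (τ s) - τ s * deriv φ (τ s)))
    {σ d : ℝ} (h0 : 0 < σ) (hd : |d| ≤ σ) :
    σ * hh p φ τ σ / 2 - (∫ u in (0 : ℝ)..σ, hh p φ τ u) + -((p - 2) / p * deriv φ 1)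
      + hh p φ τ σ / (2 * σ) * (σ * d) ≤ σ ^ p * φ (d / σ) := by
  have hdiff : Differentiable ℝ φ := hD.sm.differentiable (by norm_num)
  have hp0 : 0 < p := by linarith [hD.p1]
  have e : hh p φ τ σ / (2 * σ) * (σ * d) = hh p φ τ σ * d / 2 := by
    field_simp
  rw [e]
  have hσp : 0 < σ ^ p := Real.rpow_pos_of_pos h0 p
  rcases le_or_gt 1 σ with h1 | h1
  · have h2 := hid σ h1
    have h3 : hh p φ τ σ = 2 * σ ^ (p - 1) * deriv φ (τ σ) := by
      rcases eq_or_lt_of_le h1 with h4 | h4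
      · rw [← h4, hC.one, Real.one_rpow]
        unfold hh
        rw [if_pos le_rfl]
        ring
      · unfold hh
        rw [if_neg (not_le.2 h4)]
    have h4 : σ ^ (p - 1) = σ ^ p / σ := by rw [Real.rpow_sub h0, Real.rpow_one]
    have h5 := mul_le_mul_of_nonneg_left (tangent hD.cv hdiff (τ σ) (d / σ)) hσp.le
    have h6 : hh p φ τ σ * d / 2 = σ ^ p * (deriv φ (τ σ) * (d / σ)) := by
      rw [h3, h4]
      field_simp
    rw [h6, ← sub_eq_add_neg, h2]
    refine le_trans (le_of_eq ?_) h5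
    ring
  · have h2 : hh p φ τ σ = 2 * deriv φ 1 * σ := by
      unfold hh; rw [if_pos h1.le]
    have h3 : ∫ u in (0 : ℝ)..σ, hh p φ τ u = deriv φ 1 * σ ^ 2 := by
      have h4 : ∫ u in (0 : ℝ)..σ, hh p φ τ u = ∫ u in (0 : ℝ)..σ, 2 * deriv φ 1 * u := by
        refine intervalIntegral.integral_congr fun u hu => ?_
        rw [uIcc_of_le h0.le] at hu
        show hh p φ τ u = _
        unfold hh
        rw [if_pos (hu.2.trans h1.le)]
      rw [h4, intervalIntegral.integral_const_mul, integral_id]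
      ring
    rw [h2, h3]
    set D := deriv φ 1 with hDdef
    have hK : 0 < KK p φ 1 := (hT.pos 1 ⟨hT.lt, le_rfl⟩).1
    have hK2 : 0 < (p - 2) * D := by
      unfold KK at hK
      have := hD.e1
      rw [← hDdef] at hK this
      nlinarith
    have h5 := mul_le_mul_of_nonneg_left (tangent hD.cv hdiff 1 (d / σ)) hσp.le
    rw [← hDdef] at h5
    have h6 : φ 1 = 2 / p * D := by
      have := hD.e1
      rw [← hDdef] at this
      field_simp
      linarith
    rw [h6] at h5
    refine le_trans ?_ h5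
    have h7 : σ ^ p * (2 / p * D + D * (d / σ - 1)) -
        (σ * (2 * D * σ) / 2 - D * σ ^ 2 + -((p - 2) / p * D) + 2 * D * σ * d / 2) =
        D * ((p - 2) / p * (1 - σ ^ p) - σ * d * (1 - σ ^ (p - 2))) := by
      have h8 : σ ^ (p - 2) = σ ^ p / σ ^ 2 := by
        rw [Real.rpow_sub h0]
        congr 1
        have := Real.rpow_natCast σ 2
        simpa using this
      rw [h8]
      field_simp
      ring
    rw [← sub_nonneg, h7]
    obtain ⟨hd1, hd2⟩ := abs_le.1 hd
    have hpp : σ ^ 2 * σ ^ (p - 2) = σ ^ p := by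
      have h9 : σ ^ 2 = σ ^ (2 : ℝ) := by
        have := Real.rpow_natCast σ 2
        simpa using this.symm
      rw [h9, ← Real.rpow_add h0]
      congr 1
      ring
    rcases lt_trichotomy p 2 with hp | hp | hp
    · have hDn : D < 0 := by
        by_contra hcon
        rw [not_lt] at hcon
        nlinarith
      have h9 : 1 ≤ σ ^ (p - 2) := Real.one_le_rpow_of_pos_of_le_one_of_nonpos h0 h1.le (by linarith)
      have h10 := young2 hD.p1 hp h0
      have h11 : -(σ * d * (1 - σ ^ (p - 2))) ≤ σ ^ p - σ ^ 2 := by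
        have h12 : σ * d * (σ ^ (p - 2) - 1) ≤ σ ^ 2 * (σ ^ (p - 2) - 1) := by
          apply mul_le_mul_of_nonneg_right _ (by linarith)
          nlinarith
        nlinarith
      have h13 : (p - 2) / p * (1 - σ ^ p) - σ * d * (1 - σ ^ (p - 2)) ≤ 0 := by
        have h14 : (p - 2) / p * (1 - σ ^ p) + σ ^ p = 2 / p * σ ^ p + (p - 2) / p := by
          field_simp
          ring
        linarith
      exact mul_nonneg_of_nonpos_of_nonpos hDn.le h13
    · rw [hp] at hK2
      simp at hK2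
    · have hDp : 0 < D := by
        by_contra hcon
        rw [not_lt] at hcon
        nlinarith
      have h9 : σ ^ (p - 2) ≤ 1 := Real.rpow_le_one h0.le h1.le (by linarith)
      have h10 := young1 hp h0
      have h11 : σ ^ p - σ ^ 2 ≤ -(σ * d * (1 - σ ^ (p - 2))) := by
        have h12 : σ * d * (1 - σ ^ (p - 2)) ≤ σ ^ 2 * (1 - σ ^ (p - 2)) := by
          apply mul_le_mul_of_nonneg_right _ (by linarith)
          nlinarith
        nlinarith
      have h13 : 0 ≤ (p - 2) / p * (1 - σ ^ p) - σ * d * (1 - σ ^ (p - 2)) := by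
        have h14 : (p - 2) / p * (1 - σ ^ p) + σ ^ p = 2 / p * σ ^ p + (p - 2) / p := by
          field_simp
          ring
        linarith
      exact mul_nonneg hDp.le h13

/-- equality on the curve of contact -/
lemma core_eq {p : ℝ} {φ : ℝ → ℝ} {tc : ℝ} {τ : ℝ → ℝ}
    (hC : Cv p φ tc τ)
    (hid : ∀ s, 1 ≤ s → s * hh p φ τ s / 2 - (∫ u in (0 : ℝ)..s, hh p φ τ u)
      - (p - 2) / p * deriv φ 1 = s ^ p * (φ (τ s) - τ s * deriv φ (τ s)))
    {σ : ℝ} (h1 : 1 ≤ σ) :
    σ * hh p φ τ σ / 2 - (∫ u in (0 : ℝ)..σ, hh p φ τ u) + -((p - 2) / p * deriv φ 1)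
      + hh p φ τ σ / (2 * σ) * (σ * (σ * τ σ)) = σ ^ p * φ (τ σ) := by
  have h0 : 0 < σ := by linarith
  have h2 := hid σ h1
  have h3 : hh p φ τ σ = 2 * σ ^ (p - 1) * deriv φ (τ σ) := by
    rcases eq_or_lt_of_le h1 with h4 | h4
    · rw [← h4, hC.one, Real.one_rpow]
      unfold hh
      rw [if_pos le_rfl]
      ring
    · unfold hh
      rw [if_neg (not_le.2 h4)]
  have h4 : σ ^ (p - 1) = σ ^ p / σ := by rw [Real.rpow_sub h0, Real.rpow_one]
  have h6 : hh p φ τ σ / (2 * σ) * (σ * (σ * τ σ)) = σ ^ p * (deriv φ (τ σ) * τ σ) := by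
    rw [h3, h4]
    field_simp
  rw [h6, ← sub_eq_add_neg, h2]
  ring

lemma wp_scale {p : ℝ} (φ : ℝ → ℝ) {r x y : ℝ} (hr : 0 < r) (hx : 0 ≤ x) (hy : 0 ≤ y) :
    wp p φ x y = r ^ p * wp p φ (x / r) (y / r) := by
  unfold wp
  have h1 : x / r + y / r = (x + y) / r := by ring
  have h2 : (x / r - y / r) / ((x + y) / r) = (x - y) / (x + y) := by
    rw [← sub_div, div_div_div_cancel_right₀ hr.ne']
  rw [h1, h2, Real.div_rpow (by linarith) hr.le, ← mul_assoc, mul_div_cancel₀]
  exact (Real.rpow_pos_of_pos hr p).ne'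

lemma rc_scale {al be : ℝ → ℝ} {p r : ℝ} (hr : 0 < r) (h : RC al be) :
    RC (fun q => r ^ p * al (q / r)) (fun q => r ^ (p - 2) * be (q / r)) := by
  intro τ
  have hrp : 0 < r ^ p := Real.rpow_pos_of_pos hr p
  have h1 := h (τ / r)
  have h2 : (fun t : ℝ => r ^ p * al (max |t| |τ| / r) + r ^ (p - 2) * be (max |t| |τ| / r) *
      (t * τ)) = fun t : ℝ => r ^ p * (al (max |t / r| |τ / r|) + be (max |t / r| |τ / r|) *
      (t / r * (τ / r))) := by
    funext t
    have h3 : max |t / r| |τ / r| = max |t| |τ| / r := by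
      rw [abs_div, abs_div, abs_of_pos hr, max_div_div_right hr.le]
    have h4 : r ^ (p - 2) = r ^ p / r ^ 2 := by
      rw [Real.rpow_sub hr]
      congr 1
      have := Real.rpow_natCast r 2
      simpa using this
    rw [h3, h4]
    field_simp
  rw [h2]
  refine ⟨convex_univ, fun x _ y _ a b ha hb hab => ?_⟩
  have h5 := h1.2 (mem_univ (x / r)) (mem_univ (y / r)) ha hb hab
  simp only [smul_eq_mul] at h5 ⊢
  have h6 : (a * x + b * y) / r = a * (x / r) + b * (y / r) := by ring
  rw [h6]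
  have h7 := mul_le_mul_of_nonneg_left h5 hrp.le
  refine h7.trans (le_of_eq ?_)
  ring

theorem main (h1 : S_KP) (h2 : S_TC) (h3 : S_INV) (h4 : S_HC) (h5 : S_ID) : S_SUPB := by
  intro p φ hD t ht hK s hs
  have hp0 : 0 < p := by linarith [hD.p1]
  obtain ⟨tc, hT, htc⟩ := h2 p φ hD t ht hK
  obtain ⟨τ, hC⟩ := h3 p φ hD tc hT
  obtain ⟨hcv, hct⟩ := h4 p φ hD tc hT τ hC
  obtain ⟨s1, hs1, hτ⟩ := hC.onto t ⟨htc, ht.2⟩
  have hid := h5 p φ hD tc hT τ hC
  have hh0 : hh p φ τ 0 = 0 := by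
    unfold hh
    rw [if_pos zero_le_one, mul_zero]
  have hRC := h1 (hh p φ τ) hcv hct hh0 (-((p - 2) / p * deriv φ 1))
  have hs10 : 0 < s1 := by linarith
  set r := s / s1 with hr
  have hr0 : 0 < r := div_pos hs hs10
  have hrp : 0 < r ^ p := Real.rpow_pos_of_pos hr0 p
  refine ⟨_, _, rc_scale (p := p) hr0 hRC, ?_, ?_⟩
  · intro x y hx hy
    rw [wp_scale φ hr0 hx hy]
    have e1 : r ^ (p - 2) = r ^ p / r ^ 2 := by
      rw [Real.rpow_sub hr0]
      congr 1
      have := Real.rpow_natCast r 2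
      simpa using this
    rcases eq_or_lt_of_le (add_nonneg hx hy) with h0 | h0
    · have hx0 : x = 0 := by linarith
      have hy0 : y = 0 := by linarith
      subst hx0
      subst hy0
      have hK1 : 0 < KK p φ 1 := (hT.pos 1 ⟨hT.lt, le_rfl⟩).1
      have hK2 : 0 < (p - 2) * deriv φ 1 := by
        unfold KK at hK1
        have := hD.e1
        nlinarith
      have e2 : wp p φ (0 / r) (0 / r) = 0 := by
        unfold wp
        rw [zero_div, add_zero, Real.zero_rpow hp0.ne', zero_mul]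
      rw [e2]
      have e3 : (0 + 0 : ℝ) / r = 0 := by rw [add_zero, zero_div]
      rw [e3, hh0]
      have e4 : (p - 2) / p * deriv φ 1 = ((p - 2) * deriv φ 1) / p := by ring
      have e5 : 0 < (p - 2) / p * deriv φ 1 := by rw [e4]; exact div_pos hK2 hp0
      simp
      nlinarith
    · have h6 := core hD hT hC hid (σ := (x + y) / r) (d := (x - y) / r) (div_pos h0 hr0) (by
        rw [abs_div, abs_of_pos hr0]
        apply div_le_div_of_nonneg_right _ hr0.le
        rw [abs_le]
        constructor <;> linarith)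
      have h7 := mul_le_mul_of_nonneg_left h6 hrp.le
      have e2 : (x + y) / r = x / r + y / r := by ring
      have e3 : (x - y) / r = x / r - y / r := by ring
      have e4 : r ^ p * (((x + y) / r) ^ p * φ ((x - y) / r / ((x + y) / r))) =
          r ^ p * wp p φ (x / r) (y / r) := by
        unfold wp
        rw [e2, e3]
      rw [e4] at h7
      refine le_trans (le_of_eq ?_) h7
      rw [e1]
      field_simp
      ring
  · have h6 := core_eq hC hid hs1
    rw [hτ] at h6
    have h7 := congrArg (fun z => r ^ p * z) h6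
    beta_reduce at h7
    have e0 : s * (1 + t) / 2 + s * (1 - t) / 2 = s := by ring
    have e1 : s / r = s1 := by
      rw [hr]
      field_simp
    have e2 : wp p φ (s * (1 + t) / 2) (s * (1 - t) / 2) = r ^ p * (s1 ^ p * φ t) := by
      unfold wp
      rw [e0]
      have e3 : (s * (1 + t) / 2 - s * (1 - t) / 2) / s = t := by
        field_simp
        ring
      rw [e3, ← mul_assoc, ← Real.mul_rpow hr0.le hs10.le, hr, div_mul_cancel₀ _ hs10.ne']
    rw [e2, ← h7, e0, e1]
    have e4 : r ^ (p - 2) = r ^ p / r ^ 2 := by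
      rw [Real.rpow_sub hr0]
      congr 1
      have := Real.rpow_natCast r 2
      simpa using this
    have e5 : (s * (1 + t) / 2) ^ 2 - (s * (1 - t) / 2) ^ 2 = r ^ 2 * (s1 * (s1 * t)) := by
      rw [hr]
      field_simp
      ring
    rw [e4, e5]
    field_simp

end Pool.Agent.W337.HQ.SupB
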